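import Pool.Agent.U108.OI.A
import Pool.Agent.H373R2.T7.SupLiou

set_option autoImplicit false

/-! Bounded functions with small exponential sums, on average over the translates of a thin family with arbitrary coefficients. -/

namespace Pool.Agent.U108.LV

open Finset
open Pool.Agent.TH212.EH (En)
open Pool.Agent.H373R2.T7 (energy SupSmall)
open Pool.Agent.H807R2.Dav (ee norm_ee)
open Pool.Agent.TH445.OI (Good l1_family)
open Pool.Agent.U108.OI (seq pos seq_pos pos_mem pos_inj seq_mem energy_seq)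

/-- the even extension, zero at zero -/
noncomputable def ev (f : ℕ → ℂ) (m : ℤ) : ℂ := if m = 0 then 0 else f m.natAbs

lemma ev_norm (f : ℕ → ℂ) (hf : ∀ n, ‖f n‖ ≤ 1) (m : ℤ) : ‖ev f m‖ ≤ 1 := by
  unfold ev
  split_ifs
  · simp
  · exact hf _

lemma ee_add (x y : ℝ) : ee (x + y) = ee x * ee y := by
  unfold ee
  rw [← Complex.exp_add]
  congr 1
  push_cast
  ring

lemma shifted_sum (f : ℕ → ℂ) (hf : ∀ n, ‖f n‖ ≤ 1) (H : ℕ) (hH : 1 ≤ H) (δ : ℝ)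
    (hδ : ∀ α : ℝ, ‖∑ n ∈ Icc 1 H, f n * ee ((n : ℝ) * α)‖ ≤ δ) (α : ℝ) :
    ‖∑ t ∈ Icc 1 ((1 + 1) * H), ev f ((t : ℤ) - H) * ee ((t : ℝ) * α)‖ ≤ 2 * δ + 1 := by
  have e0 : ∀ n : ℕ, Icc 1 n = Ioc 0 n := by
    intro n
    ext t
    rw [mem_Icc, mem_Ioc]
    omega
  have h1 : ∑ t ∈ Icc 1 ((1 + 1) * H), ev f ((t : ℤ) - H) * ee ((t : ℝ) * α) =
      ∑ t ∈ Ioc 0 H, ev f ((t : ℤ) - H) * ee ((t : ℝ) * α) + ∑ t ∈ Ioc H (2 * H), ev f ((t : ℤ) - H) * ee ((t : ℝ) * α) := by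
    rw [e0, show (1 + 1) * H = 2 * H by ring]
    exact (sum_Ioc_consecutive _ (Nat.zero_le _) (by omega)).symm
  have h2 : ∑ t ∈ Ioc H (2 * H), ev f ((t : ℤ) - H) * ee ((t : ℝ) * α) = ee ((H : ℝ) * α) * ∑ n ∈ Icc 1 H, f n * ee ((n : ℝ) * α) := by
    rw [mul_sum]
    refine (sum_nbij' (fun t => t - H) (fun n => n + H) ?_ ?_ ?_ ?_ ?_)
    · intro t ht
      rw [mem_Ioc] at ht
      rw [mem_Icc]
      omega
    · intro n hn
      rw [mem_Icc] at hn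
      rw [mem_Ioc]
      omega
    · intro t ht
      rw [mem_Ioc] at ht
      omega
    · intro n hn
      simp
    · intro t ht
      rw [mem_Ioc] at ht
      obtain ⟨n, rfl⟩ : ∃ n, t = n + H := ⟨t - H, by omega⟩
      have hn0 : (n : ℤ) ≠ 0 := by omega
      have e1 : (((n + H : ℕ) : ℤ) - H) = n := by push_cast; ring
      rw [e1, Nat.add_sub_cancel]
      unfold ev
      rw [if_neg hn0, Int.natAbs_natCast]
      have e2 : (((n + H : ℕ) : ℝ)) * α = (H : ℝ) * α + (n : ℝ) * α := by push_cast; ring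
      rw [e2, ee_add]
      ring
  have h3 : ∑ t ∈ Ioc 0 H, ev f ((t : ℤ) - H) * ee ((t : ℝ) * α) =
      ee ((H : ℝ) * α) * (∑ n ∈ Icc 1 H, f n * ee ((n : ℝ) * (-α)) - f H * ee ((H : ℝ) * (-α))) := by
    have h4 : ∑ n ∈ Icc 1 H, f n * ee ((n : ℝ) * (-α)) - f H * ee ((H : ℝ) * (-α)) = ∑ n ∈ Icc 1 (H - 1), f n * ee ((n : ℝ) * (-α)) := by
      obtain ⟨H', rfl⟩ : ∃ H', H = H' + 1 := ⟨H - 1, by omega⟩
      rw [sum_Icc_succ_top (by omega)]
      simp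
    have h5 : ∑ t ∈ Ioc 0 H, ev f ((t : ℤ) - H) * ee ((t : ℝ) * α) = ∑ t ∈ Icc 1 (H - 1), ev f ((t : ℤ) - H) * ee ((t : ℝ) * α) := by
      obtain ⟨H', rfl⟩ : ∃ H', H = H' + 1 := ⟨H - 1, by omega⟩
      rw [← e0, sum_Icc_succ_top (by omega)]
      have : ev f (((H' + 1 : ℕ) : ℤ) - ((H' + 1 : ℕ) : ℤ)) = 0 := by
        unfold ev
        rw [if_pos (sub_self _)]
      rw [this, zero_mul, add_zero]
      rfl
    rw [h4, h5, mul_sum]
    refine (sum_nbij' (fun t => H - t) (fun n => H - n) ?_ ?_ ?_ ?_ ?_)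
    · intro t ht
      rw [mem_Icc] at ht ⊢
      omega
    · intro t ht
      rw [mem_Icc] at ht ⊢
      omega
    · intro t ht
      rw [mem_Icc] at ht
      omega
    · intro t ht
      rw [mem_Icc] at ht
      omega
    · intro t ht
      rw [mem_Icc] at ht
      obtain ⟨n, rfl⟩ : ∃ n, H = t + n := ⟨H - t, by omega⟩
      have hn0 : ((t : ℤ) - ((t + n : ℕ) : ℤ)) ≠ 0 := by push_cast; omega
      unfold ev
      rw [if_neg hn0]
      have e1 : ((t : ℤ) - ((t + n : ℕ) : ℤ)).natAbs = n := by omega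
      have e3 : t + n - t = n := by omega
      rw [e1, e3]
      have e2 : (t : ℝ) * α = ((t + n : ℕ) : ℝ) * α + (n : ℝ) * (-α) := by push_cast; ring
      rw [e2, ee_add]
      ring
  rw [h1, h2, h3]
  refine (norm_add_le _ _).trans ?_
  rw [norm_mul, norm_mul, norm_ee, one_mul, one_mul]
  have h6 := norm_sub_le (∑ n ∈ Icc 1 H, f n * ee ((n : ℝ) * (-α))) (f H * ee ((H : ℝ) * (-α)))
  have h7 : ‖f H * ee ((H : ℝ) * (-α))‖ ≤ 1 := by
    rw [norm_mul, norm_ee, mul_one]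
    exact hf H
  have h8 := hδ α
  have h9 := hδ (-α)
  linarith

/-- **A bounded function with small exponential sums, on average over the translates of a family of small energy.** -/
theorem sup_dual (f : ℕ → ℂ) (hf : ∀ n, ‖f n‖ ≤ 1) (hsup : SupSmall f) (p B C U T : ℕ) (hB : 1 ≤ B) : ∃ N₀ : ℕ, ∀ N : ℕ, N₀ ≤ N →
    ∀ (ι : Type) [Fintype ι] (v : ι → ℤ), (∀ i, |v i| ≤ B * N) →
    (En p v : ℝ) * N ≤ Real.log N ^ C * (Fintype.card ι : ℝ) ^ (2 * p) →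
    ∀ c : ι → ℂ, (∀ i, ‖c i‖ ≤ Real.log N ^ T) →
    ∑ n ∈ Icc (-((B * N : ℕ) : ℤ)) ((B * N : ℕ) : ℤ), ‖∑ i, c i * ev f (v i + n)‖ ≤ N * Fintype.card ι / Real.log N ^ U := by
  classical
  obtain ⟨W, hW⟩ : ∃ W, W = U + T + 2 := ⟨_, rfl⟩
  obtain ⟨U', hU'⟩ : ∃ U', U' = C + 2 * p * W + U + T + 2 := ⟨_, rfl⟩
  obtain ⟨n1, h1⟩ := hsup U'
  have htend : Filter.Tendsto (fun n : ℕ => Real.log (n : ℝ)) Filter.atTop Filter.atTop :=
    Real.tendsto_log_atTop.comp tendsto_natCast_atTop_atTop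
  obtain ⟨n2, h2⟩ := Filter.eventually_atTop.1 ((htend.eventually_ge_atTop (30 * (B : ℝ) ^ 2 + 10)).and (Filter.eventually_ge_atTop 3))
  obtain ⟨n3, h3⟩ := Pool.Agent.U471.RP.ev_pow_log U'
  refine ⟨n1 + n2 + n3, fun N hN ι _ v hv hE c hc => ?_⟩
  obtain ⟨hL10, hN3⟩ := h2 N (by omega)
  have hLU := h3 N (by omega)
  obtain ⟨L, hL⟩ : ∃ L, L = Real.log (N : ℝ) := ⟨_, rfl⟩
  rw [← hL] at hL10 hLU hE hc ⊢
  have hBr : (1 : ℝ) ≤ B := by exact_mod_cast hB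
  have hL1 : 1 ≤ L := by nlinarith
  have hL0 : 0 < L := by linarith
  have hN0 : (0 : ℝ) < N := by exact_mod_cast (by omega : 0 < N)
  obtain ⟨M, hM⟩ : ∃ M, M = B * N := ⟨_, rfl⟩
  have hv' : ∀ i, |v i| ≤ (M : ℤ) := fun i => by rw [hM]; push_cast; exact hv i
  rw [← hM]
  obtain ⟨H, hH⟩ : ∃ H, H = 2 * M + 1 := ⟨_, rfl⟩
  have hNH : N ≤ H := by
    have : N ≤ B * N := Nat.le_mul_of_pos_left _ (by omega)
    omega
  have hHr : (H : ℝ) ≤ 3 * B * N := by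
    rw [hH, hM]; push_cast
    have : (1 : ℝ) ≤ N := by exact_mod_cast (by omega : 1 ≤ N)
    nlinarith
  have hH0 : (0 : ℝ) < H := by exact_mod_cast (by omega : 0 < H)
  obtain ⟨x, hx⟩ : ∃ x, x = Fintype.card ι := ⟨_, rfl⟩
  rw [← hx] at hE ⊢
  -- the exponential sums
  obtain ⟨δ, hδ⟩ : ∃ δ : ℝ, δ = 9 * B * N / L ^ U' := ⟨_, rfl⟩
  have hδ1 : ∀ α : ℝ, ‖∑ t ∈ Icc 1 ((1 + 1) * H), ev f ((t : ℤ) - H) * ee ((t : ℝ) * α)‖ ≤ δ := by
    intro α
    have hs : ∀ α : ℝ, ‖∑ n ∈ Icc 1 H, f n * ee ((n : ℝ) * α)‖ ≤ 3 * B * N / L ^ U' := by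
      intro α
      refine (h1 H (by omega) α).trans ?_
      apply div_le_div₀ (by positivity) hHr (by positivity)
      apply pow_le_pow_left₀ hL0.le
      rw [hL]
      exact Real.log_le_log hN0 (by exact_mod_cast hNH)
    refine (shifted_sum f hf H (by omega) _ hs α).trans ?_
    have h4 : (1 : ℝ) ≤ 3 * B * N / L ^ U' := by
      rw [le_div_iff₀ (by positivity), one_mul]
      refine hLU.trans ?_
      nlinarith
    rw [hδ]
    have e : 9 * (B : ℝ) * N / L ^ U' = 3 * (3 * B * N / L ^ U') := by ring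
    rw [e]
    linarith
  -- the family
  have hgood : Good H 1 p (3 * B * L ^ C) x (fun m => (seq v m + (M : ℕ)).toNat) := by
    constructor
    · intro m hm
      rw [hx] at hm
      obtain ⟨u, hu⟩ := seq_mem v m hm
      have h4 := (abs_le.1 (hv' u)).2
      simp only [hu]
      omega
    · have h4 : energy p x (fun m => (((seq v m + ((M : ℕ) : ℤ)).toNat : ℕ) : ℤ)) = energy p x (seq v) := by
        unfold energy
        congr 1
        apply filter_congr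
        intro q hq
        rw [mem_product, Fintype.mem_piFinset, Fintype.mem_piFinset] at hq
        have hpos : ∀ m ∈ Icc 1 x, 0 ≤ seq v m + ((M : ℕ) : ℤ) := by
          intro m hm
          rw [hx] at hm
          obtain ⟨u, hu⟩ := seq_mem v m hm
          have h4 := (abs_le.1 (hv' u)).1
          rw [hu]
          omega
        have e1 : ∀ r, (((seq v (q.1 r) + ((M : ℕ) : ℤ)).toNat : ℕ) : ℤ) = seq v (q.1 r) + ((M : ℕ) : ℤ) :=
          fun r => Int.toNat_of_nonneg (hpos _ (hq.1 r))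
        have e2 : ∀ r, (((seq v (q.2 r) + ((M : ℕ) : ℤ)).toNat : ℕ) : ℤ) = seq v (q.2 r) + ((M : ℕ) : ℤ) :=
          fun r => Int.toNat_of_nonneg (hpos _ (hq.2 r))
        simp only [e1, e2, sum_add_distrib, add_left_inj]
      rw [h4]
      have h5 : (energy p x (seq v) : ℝ) ≤ En p v := by
        rw [hx]
        exact_mod_cast energy_seq p v
      calc (energy p x (seq v) : ℝ) * H ≤ (En p v : ℝ) * (3 * B * N) := mul_le_mul h5 hHr hH0.le (Nat.cast_nonneg _)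
        _ = 3 * B * ((En p v : ℝ) * N) := by ring
        _ ≤ 3 * B * (L ^ C * (x : ℝ) ^ (2 * p)) := mul_le_mul_of_nonneg_left hE (by positivity)
        _ = _ := by ring
  -- the signs
  obtain ⟨g, hg⟩ : ∃ g : ℤ → ℂ, g = fun n => (starRingEnd ℂ) (∑ i, c i * ev f (v i + n)) / ‖∑ i, c i * ev f (v i + n)‖ := ⟨_, rfl⟩
  have hg1 : ∀ n, ‖g n‖ ≤ 1 := by
    intro n
    rw [hg]
    simp only [norm_div, RCLike.norm_conj, Complex.norm_real, norm_norm]
    exact div_self_le_one _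
  have hg2 : ∀ n, g n * ∑ i, c i * ev f (v i + n) = ‖∑ i, c i * ev f (v i + n)‖ := by
    intro n
    rw [hg]
    simp only
    rcases eq_or_ne (‖∑ i, c i * ev f (v i + n)‖) 0 with h0 | h0
    · rw [h0]
      have : ∑ i, c i * ev f (v i + n) = 0 := norm_eq_zero.1 h0
      rw [this]
      simp
    · have h0' : ((‖∑ i, c i * ev f (v i + n)‖ : ℝ) : ℂ) ≠ 0 := by exact_mod_cast h0
      rw [div_mul_eq_mul_div, div_eq_iff h0', mul_comm ((starRingEnd ℂ) _), Complex.mul_conj, Complex.normSq_eq_norm_sq]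
      push_cast
      ring
  have hl1 := l1_family H 1 p (3 * B * L ^ C) x (fun m => (seq v m + (M : ℕ)).toNat) (by omega) hgood
    (fun t => ev f ((t : ℤ) - H)) (fun t => ev_norm f hf _) δ hδ1 (fun a => g ((a : ℤ) - (M + 1 : ℕ))) (fun a => hg1 _)
    (1 / L ^ W) (by positivity)
  -- conversion
  have hconv : ∑ n ∈ Icc (-((M : ℕ) : ℤ)) ((M : ℕ) : ℤ), ‖∑ i, c i * ev f (v i + n)‖ ≤
      L ^ T * ∑ m ∈ Icc 1 x, ‖∑ a ∈ Icc 1 H, g ((a : ℤ) - (M + 1 : ℕ)) * ev f ((((a + (seq v m + (M : ℕ)).toNat : ℕ) : ℤ)) - H)‖ := by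
    have e1 : ∑ n ∈ Icc (-((M : ℕ) : ℤ)) ((M : ℕ) : ℤ), ‖∑ i, c i * ev f (v i + n)‖ =
        ‖∑ i, c i * ∑ n ∈ Icc (-((M : ℕ) : ℤ)) ((M : ℕ) : ℤ), g n * ev f (v i + n)‖ := by
      have e2 : ∑ i, c i * ∑ n ∈ Icc (-((M : ℕ) : ℤ)) ((M : ℕ) : ℤ), g n * ev f (v i + n) =
          ((∑ n ∈ Icc (-((M : ℕ) : ℤ)) ((M : ℕ) : ℤ), ‖∑ i, c i * ev f (v i + n)‖ : ℝ) : ℂ) := by
        push_cast
        simp only [← hg2, mul_sum]
        rw [sum_comm]
        refine sum_congr rfl fun n _ => sum_congr rfl fun i _ => ?_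
        ring
      rw [e2, Complex.norm_real, Real.norm_eq_abs, abs_of_nonneg (sum_nonneg fun _ _ => norm_nonneg _)]
    rw [e1]
    have e3 : ∀ i, ∑ n ∈ Icc (-((M : ℕ) : ℤ)) ((M : ℕ) : ℤ), g n * ev f (v i + n) =
        ∑ a ∈ Icc 1 H, g ((a : ℤ) - (M + 1 : ℕ)) * ev f ((((a + (seq v (pos i) + (M : ℕ)).toNat : ℕ) : ℤ)) - H) := by
      intro i
      have hvi := abs_le.1 (hv' i)
      have hnn : 0 ≤ v i + ((M : ℕ) : ℤ) := by omega
      refine (sum_nbij' (fun n => (n + (M + 1 : ℕ)).toNat) (fun a => (a : ℤ) - (M + 1 : ℕ)) ?_ ?_ ?_ ?_ ?_)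
      · intro n hn
        rw [mem_Icc] at hn ⊢
        omega
      · intro a ha
        rw [mem_Icc] at ha ⊢
        omega
      · intro n hn
        rw [mem_Icc] at hn
        omega
      · intro a ha
        omega
      · intro n hn
        rw [mem_Icc] at hn
        rw [seq_pos]
        have e8 : (((n + ((M + 1 : ℕ) : ℤ)).toNat : ℕ) : ℤ) - ((M + 1 : ℕ) : ℤ) = n := by omega
        have e9 : ((((n + ((M + 1 : ℕ) : ℤ)).toNat + (v i + ((M : ℕ) : ℤ)).toNat : ℕ) : ℤ)) - H = v i + n := by omega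
        rw [e8, e9]
    refine (norm_sum_le _ _).trans ?_
    rw [mul_sum]
    have e6 : ∀ i, ‖c i * ∑ n ∈ Icc (-((M : ℕ) : ℤ)) ((M : ℕ) : ℤ), g n * ev f (v i + n)‖ ≤
        (fun m => L ^ T * ‖∑ a ∈ Icc 1 H, g ((a : ℤ) - (M + 1 : ℕ)) * ev f ((((a + (seq v m + (M : ℕ)).toNat : ℕ) : ℤ)) - H)‖) (pos i) := by
      intro i
      rw [norm_mul, e3 i]
      exact mul_le_mul_of_nonneg_right (hc i) (norm_nonneg _)
    refine (sum_le_sum fun i _ => e6 i).trans ?_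
    rw [← sum_image (f := fun m => L ^ T * ‖∑ a ∈ Icc 1 H, g ((a : ℤ) - (M + 1 : ℕ)) *
      ev f ((((a + (seq v m + (M : ℕ)).toNat : ℕ) : ℤ)) - H)‖) (s := univ) (g := (pos : ι → ℕ)) (fun i _ j _ h => pos_inj h)]
    apply sum_le_sum_of_subset_of_nonneg
    · intro m hm
      rw [mem_image] at hm
      obtain ⟨i, _, rfl⟩ := hm
      rw [hx]
      exact pos_mem i
    · intro m _ _
      positivity
  refine hconv.trans ((mul_le_mul_of_nonneg_left hl1 (by positivity)).trans ?_)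
  have hx0 : (0 : ℝ) ≤ x := Nat.cast_nonneg _
  have e7 : (1 / L ^ W) ^ (2 * p) = 1 / L ^ (2 * p * W) := by
    rw [one_div_pow, ← pow_mul]
    congr 2
    ring
  rw [e7, hδ]
  push_cast
  have t1 : L ^ T * (3 * B * L ^ C / (1 / L ^ (2 * p * W)) * (9 * B * N / L ^ U') * x) = N * x / L ^ U * (27 * (B : ℝ) ^ 2 / L ^ 2) := by
    have e10 : L ^ U' = L ^ C * L ^ (2 * p * W) * L ^ U * L ^ T * L ^ 2 := by rw [hU']; ring
    rw [e10]
    field_simp
    ring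
  have t2 : L ^ T * (1 / L ^ W * x * ((1 + 1) * H)) ≤ N * x / L ^ U * (6 * (B : ℝ) / L ^ 2) := by
    have e8 : N * x / L ^ U * (6 * (B : ℝ) / L ^ 2) = L ^ T * (1 / L ^ W * x * ((1 + 1) * (3 * B * N))) := by
      have e11 : L ^ W = L ^ U * L ^ T * L ^ 2 := by rw [hW]; ring
      rw [e11]
      field_simp
      ring
    rw [e8]
    apply mul_le_mul_of_nonneg_left _ (by positivity)
    apply mul_le_mul_of_nonneg_left _ (by positivity)
    linarith
  rw [mul_add, t1]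
  have t3 : 27 * (B : ℝ) ^ 2 / L ^ 2 + 6 * B / L ^ 2 ≤ 1 := by
    rw [← add_div, div_le_one (by positivity)]
    nlinarith
  calc N * x / L ^ U * (27 * (B : ℝ) ^ 2 / L ^ 2) + L ^ T * (1 / L ^ W * x * ((1 + 1) * H)) ≤
        N * x / L ^ U * (27 * (B : ℝ) ^ 2 / L ^ 2) + N * x / L ^ U * (6 * (B : ℝ) / L ^ 2) := by linarith
    _ = N * x / L ^ U * (27 * (B : ℝ) ^ 2 / L ^ 2 + 6 * B / L ^ 2) := by ring
    _ ≤ N * x / L ^ U * 1 := mul_le_mul_of_nonneg_left t3 (by positivity)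
    _ = _ := mul_one _

end Pool.Agent.U108.LV
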