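import Pool.Agent.U108.LV.A
import Pool.Agent.U108.PV.I

set_option autoImplicit false

/-! Functions with small exponential sums at polynomial values, for arguments with restricted digits, in all initial segments
and residue classes, for almost all constant terms. -/

namespace Pool.Agent.U108.LV

open Finset
open Pool.Agent.TH212.EH (En)
open Pool.Agent.TH872.GQ (S)
open Pool.Agent.H373R2.T7 (SupSmall)
open Pool.Agent.U108.PV (one_energy mem_S card_pow card_block poly_exp mv mv_eval mv_degree)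
open Polynomial (X)
open scoped Polynomial

/-- the sum over the `n < y` with restricted digits in a residue class -/
noncomputable def SU (b k : ℕ) (D : ℕ → Finset ℕ) (G : ℕ → ℂ) (h : ℤ → ℂ) (F : ℤ[X]) (c : ℤ) (y q a : ℕ) : ℂ :=
  ∑ n ∈ (S b D k).filter (fun n => n < y ∧ n % q = a), G n * h (F.eval (n : ℤ) + c)

lemma card_pos (b k : ℕ) (hb : 1 ≤ b) (D : ℕ → Finset ℕ) (hD : ∀ i < k, D i ⊆ range b ∧ 2 ≤ (D i).card) : 0 < (S b D k).card :=
  lt_of_lt_of_le (by positivity) (card_pow b k hb D hD)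

open Classical in
theorem one (f : ℕ → ℂ) (hf : ∀ n, ‖f n‖ ≤ 1) (hsup : SupSmall f) (b r B A U : ℕ) (hb : 2 ≤ b) (F : ℤ[X])
    (hF : F.natDegree = r + 2) : ∃ k₀ : ℕ, ∀ k : ℕ, k₀ ≤ k →
    ∀ D : ℕ → Finset ℕ, (∀ i < k, D i ⊆ range b ∧ 2 ≤ (D i).card) → ∀ G : ℕ → ℂ, (∀ n, ‖G n‖ ≤ 1) →
    (((Icc (-((B * b ^ ((r + 2) * k) : ℕ) : ℤ)) ((B * b ^ ((r + 2) * k) : ℕ) : ℤ)).filter (fun c : ℤ =>
      ∃ y q a : ℕ, 1 ≤ q ∧ q ≤ k ^ A ∧ (S b D k).card / (k : ℝ) ^ U < ‖SU b k D G (ev f) F c y q a‖)).card : ℝ) ≤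
      ((b ^ ((r + 2) * k) : ℕ) : ℝ) / (k : ℝ) ^ U := by
  have hF0 : F.leadingCoeff ≠ 0 := by
    rw [Ne, Polynomial.leadingCoeff_eq_zero]
    rintro rfl
    simp at hF
  obtain ⟨h, k₁, hh, hen⟩ := one_energy b r 1 hb
  obtain ⟨BF, hBF⟩ := Pool.Agent.U108.DP.eval_le (mv F) (r + 2) (by rw [← hF]; exact mv_degree F)
  obtain ⟨B', hB'⟩ : ∃ B', B' = B + BF + 1 := ⟨_, rfl⟩
  obtain ⟨W, hW⟩ : ∃ W, W = b * (U + 5) + 1 + 2 * A := ⟨_, rfl⟩
  obtain ⟨U', hU'⟩ : ∃ U', U' = W + 2 * U + 2 := ⟨_, rfl⟩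
  obtain ⟨N0, h1⟩ := sup_dual f hf hsup h B' 3 U' 0 (by omega)
  obtain ⟨K0, hK0⟩ : ∃ K0 : ℕ, ∀ k : ℕ, K0 ≤ k → k ^ (U + 4) ≤ 2 ^ (k / 2) := by
    obtain ⟨u₀, hu⟩ := poly_exp (1 / 2) (by norm_num) (by norm_num) (4 ^ (U + 4)) (U + 4)
    refine ⟨8 * u₀ + 8, fun k hk => ?_⟩
    have h4 := hu (k / 4) (by omega)
    have h5 : (k : ℝ) ≤ 4 * ((k / 4 : ℕ) + 1) := by
      have : k ≤ 4 * (k / 4 + 1) := by omega
      exact_mod_cast this
    have h6 : (k : ℝ) ^ (U + 4) ≤ 4 ^ (U + 4) * (((k / 4 : ℕ) : ℝ) + 1) ^ (U + 4) := by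
      rw [← mul_pow]
      exact pow_le_pow_left₀ (Nat.cast_nonneg _) h5 _
    have h7 : (k : ℝ) ^ (U + 4) ≤ 2 ^ (2 * (k / 4)) := by
      rw [one_div, inv_pow, ← div_eq_mul_inv, div_le_one (by positivity)] at h4
      exact h6.trans h4
    have h8 : k ^ (U + 4) ≤ 2 ^ (2 * (k / 4)) := by exact_mod_cast h7
    exact h8.trans (Nat.pow_le_pow_right (by norm_num) (by omega))
  refine ⟨k₁ + N0 + K0 + b + F.leadingCoeff.natAbs + 100, fun k hk D hD G hG => ?_⟩
  obtain ⟨⟨hl1, hl2, hkN⟩, hE⟩ := hen k (by omega)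
  have hE' := hE D hD F hF (by
    rw [pow_one, Int.abs_eq_natAbs]
    exact_mod_cast (by omega : F.leadingCoeff.natAbs ≤ k))
  obtain ⟨N, hN⟩ : ∃ N, N = b ^ ((r + 2) * k) := ⟨_, rfl⟩
  rw [← hN] at hl1 hl2 hkN hE' ⊢
  have hk100 : (100 : ℝ) ≤ k := by exact_mod_cast (by omega : 100 ≤ k)
  have hk0 : (0 : ℝ) < k := by linarith
  have hk1 : (1 : ℝ) ≤ k := by linarith
  have hN0' : 0 < N := by rw [hN]; positivity
  have hNr : (0 : ℝ) < N := by exact_mod_cast hN0'
  obtain ⟨s, hs⟩ : ∃ s : ℝ, s = (S b D k).card := ⟨_, rfl⟩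
  have hs1 : 0 < s := by rw [hs]; exact_mod_cast card_pos b k (by omega) D hD
  have hs0 : 0 ≤ s := hs1.le
  rw [← hs]
  have hcard : (Fintype.card {n : ℕ // n ∈ S b D k} : ℝ) = s := by rw [Fintype.card_coe, hs]
  -- the upper digits
  obtain ⟨m, hm⟩ : ∃ m, m = Nat.clog 2 (4 * k ^ (U + 1)) := ⟨_, rfl⟩
  have hm1 : 4 * k ^ (U + 1) ≤ 2 ^ m := by rw [hm]; exact Nat.le_pow_clog (by norm_num) _
  have hm2 : 2 ^ m ≤ 8 * k ^ (U + 1) := by
    have h4 : 1 < 4 * k ^ (U + 1) := by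
      have : 1 ≤ k ^ (U + 1) := Nat.one_le_pow _ _ (by omega)
      omega
    have h5 : m ≠ 0 := by
      rw [hm]
      exact (Nat.clog_pos (by norm_num) h4).ne'
    obtain ⟨m', rfl⟩ : ∃ m', m = m' + 1 := ⟨m - 1, by omega⟩
    have h6 : 2 ^ m' < 4 * k ^ (U + 1) := by
      by_contra hcon
      push Not at hcon
      have h7 := Nat.clog_le_of_le_pow hcon
      omega
    rw [pow_succ]
    omega
  have hm3 : 2 ^ m ≤ k ^ (U + 4) := by
    refine hm2.trans ?_
    rw [show U + 4 = U + 1 + 3 by ring, pow_add k (U + 1) 3, mul_comm]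
    apply Nat.mul_le_mul_left
    have : 100 ≤ k := by omega
    calc 8 ≤ 100 ^ 3 := by norm_num
      _ ≤ k ^ 3 := Nat.pow_le_pow_left this 3
  have hmk : m ≤ k / 2 := by
    have h4 := hK0 k (by omega)
    exact (Nat.pow_le_pow_iff_right (by norm_num : 1 < 2)).1 (hm3.trans h4)
  obtain ⟨j, hj⟩ : ∃ j, j = k - m := ⟨_, rfl⟩
  have hjk : j + m = k := by omega
  have hbm : b ^ m ≤ k ^ (b * (U + 4)) := by
    calc b ^ m ≤ (2 ^ b) ^ m := Nat.pow_le_pow_left (Nat.lt_two_pow_self.le) m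
      _ = (2 ^ m) ^ b := by rw [← pow_mul, ← pow_mul, mul_comm]
      _ ≤ (k ^ (U + 4)) ^ b := Nat.pow_le_pow_left hm3 b
      _ = k ^ (b * (U + 4)) := by rw [← pow_mul, mul_comm]
  have hbj : 0 < b ^ j := by positivity
  -- the bad sets
  obtain ⟨Bd, hBd⟩ : ∃ Bd : ℕ × ℕ × ℕ → Finset ℤ, Bd = fun t => (Icc (-((B * N : ℕ) : ℤ)) ((B * N : ℕ) : ℤ)).filter (fun c : ℤ =>
      s / (2 * (k : ℝ) ^ U) < ‖∑ n ∈ S b D k, (if n / b ^ j < t.1 ∧ n % t.2.1 = t.2.2 then G n else 0) * ev f (F.eval (n : ℤ) + c)‖) := ⟨_, rfl⟩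
  have hBdc : ∀ t, ((Bd t).card : ℝ) ≤ N / (k : ℝ) ^ (W + U + 1) := by
    intro t
    have hav := h1 N (by omega) {n : ℕ // n ∈ S b D k} (fun n => F.eval ((n : ℕ) : ℤ)) (by
      intro n
      have hn := (mem_S.1 n.2).1
      have h4 := hBF b k (fun _ => (n : ℕ)) (by omega) (fun _ => hn)
      rw [mv_eval] at h4
      refine h4.trans ?_
      rw [hN, hB']
      push_cast
      have h5 : (0 : ℤ) ≤ (b : ℤ) ^ ((r + 2) * k) := by positivity
      nlinarith [(Nat.cast_nonneg B : (0 : ℤ) ≤ B)]) hE' (fun n => if (n : ℕ) / b ^ j < t.1 ∧ (n : ℕ) % t.2.1 = t.2.2 then G n else 0) (fun n => by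
        rw [pow_zero]
        split_ifs
        · exact hG _
        · simp)
    rw [hcard] at hav
    have hconv : ∀ c : ℤ, ∑ n : {n : ℕ // n ∈ S b D k}, (if (n : ℕ) / b ^ j < t.1 ∧ (n : ℕ) % t.2.1 = t.2.2 then G n else 0) *
        ev f (F.eval ((n : ℕ) : ℤ) + c) = ∑ n ∈ S b D k, (if n / b ^ j < t.1 ∧ n % t.2.1 = t.2.2 then G n else 0) * ev f (F.eval (n : ℤ) + c) := by
      intro c
      exact Finset.sum_coe_sort (S b D k) (fun n => (if n / b ^ j < t.1 ∧ n % t.2.1 = t.2.2 then G n else 0) * ev f (F.eval (n : ℤ) + c))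
    simp only [hconv] at hav
    have hsub : Bd t ⊆ Icc (-((B' * N : ℕ) : ℤ)) ((B' * N : ℕ) : ℤ) := by
      intro c hc
      rw [hBd, mem_filter, mem_Icc] at hc
      rw [mem_Icc]
      have h4 : ((B * N : ℕ) : ℤ) ≤ ((B' * N : ℕ) : ℤ) := by
        have : B * N ≤ B' * N := Nat.mul_le_mul_right _ (by omega)
        exact_mod_cast this
      exact ⟨by linarith [hc.1.1], by linarith [hc.1.2]⟩
    have hsum : ((Bd t).card : ℝ) * (s / (2 * (k : ℝ) ^ U)) ≤ N * s / (k : ℝ) ^ U' := by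
      calc ((Bd t).card : ℝ) * (s / (2 * (k : ℝ) ^ U)) = ∑ _c ∈ Bd t, s / (2 * (k : ℝ) ^ U) := by rw [sum_const, nsmul_eq_mul]
        _ ≤ ∑ c ∈ Bd t, ‖∑ n ∈ S b D k, (if n / b ^ j < t.1 ∧ n % t.2.1 = t.2.2 then G n else 0) * ev f (F.eval (n : ℤ) + c)‖ := by
            refine sum_le_sum fun c hc => ?_
            rw [hBd, mem_filter] at hc
            exact hc.2.le
        _ ≤ _ := sum_le_sum_of_subset_of_nonneg hsub fun _ _ _ => norm_nonneg _
        _ ≤ N * s / Real.log (N : ℝ) ^ U' := hav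
        _ ≤ _ := div_le_div_of_nonneg_left (by positivity) (by positivity) (pow_le_pow_left₀ hk0.le hl1 _)
    have h5 : ((Bd t).card : ℝ) * (s / (2 * (k : ℝ) ^ U)) = s * (((Bd t).card : ℝ) / (2 * (k : ℝ) ^ U)) := by ring
    have h6 : N * s / (k : ℝ) ^ U' = s * (N / (k : ℝ) ^ U') := by ring
    rw [h5, h6] at hsum
    have h7 := le_of_mul_le_mul_left hsum hs1
    rw [div_le_iff₀ (by positivity)] at h7
    refine h7.trans ?_
    have e1 : (k : ℝ) ^ U' = (k : ℝ) ^ (W + U + 1) * (k : ℝ) ^ U * k := by rw [hU']; ring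
    rw [e1]
    calc (N : ℝ) / ((k : ℝ) ^ (W + U + 1) * (k : ℝ) ^ U * k) * (2 * (k : ℝ) ^ U) = (N : ℝ) / (k : ℝ) ^ (W + U + 1) * (2 / k) := by
          field_simp
      _ ≤ (N : ℝ) / (k : ℝ) ^ (W + U + 1) * 1 := by
          apply mul_le_mul_of_nonneg_left _ (by positivity)
          rw [div_le_one (by positivity)]
          linarith
      _ = _ := mul_one _
  have hblock : ∀ g, (((S b D k).filter (fun n => n / b ^ j = g)).card : ℝ) ≤ s / 2 ^ m := by
    intro g
    have h4 := card_block b j m (by omega) D (by rw [hjk]; exact hD) g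
    rw [hjk, ← hs] at h4
    exact h4
  obtain ⟨I, hI⟩ : ∃ I : Finset (ℕ × ℕ × ℕ), I = range (b ^ m + 1) ×ˢ (range (k ^ A + 1) ×ˢ range (k ^ A + 1)) := ⟨_, rfl⟩
  have hsub : (Icc (-((B * N : ℕ) : ℤ)) ((B * N : ℕ) : ℤ)).filter (fun c : ℤ =>
      ∃ y q a : ℕ, 1 ≤ q ∧ q ≤ k ^ A ∧ s / (k : ℝ) ^ U < ‖SU b k D G (ev f) F c y q a‖) ⊆ I.biUnion Bd := by
    intro c hc
    rw [mem_filter] at hc
    obtain ⟨hc1, y, q, a, hq1, hq2, hy⟩ := hc
    rw [mem_biUnion]
    rcases Nat.lt_or_ge a q with ha | ha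
    swap
    · -- no element in the class
      exfalso
      have h0 : SU b k D G (ev f) F c y q a = 0 := by
        unfold SU
        have : (S b D k).filter (fun n => n < y ∧ n % q = a) = ∅ := by
          apply filter_eq_empty_iff.2
          rintro n _ ⟨_, h2⟩
          have := Nat.mod_lt n hq1
          omega
        rw [this, sum_empty]
      rw [h0, norm_zero] at hy
      have : 0 < s / (k : ℝ) ^ U := by positivity
      linarith
    by_contra hcon
    push Not at hcon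
    apply absurd hy
    rw [not_lt]
    obtain ⟨g, hg⟩ : ∃ g, g = min (y / b ^ j) (b ^ m) := ⟨_, rfl⟩
    have hgr : (g, q, a) ∈ I := by
      rw [hI, mem_product, mem_product, mem_range, mem_range, mem_range]
      refine ⟨?_, ?_, ?_⟩
      · rw [hg]; simp only; omega
      · simp only; omega
      · simp only; omega
    have hg1 := hcon (g, q, a) hgr
    rw [hBd] at hg1
    simp only [mem_filter, not_and, not_lt] at hg1
    have hg2 := hg1 hc1
    have hmem : ∀ n ∈ S b D k, (n / b ^ j < g → n < y) ∧ (n < y → n / b ^ j < g ∨ n / b ^ j = g) := by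
      intro n hn
      have hn' := (mem_S.1 hn).1
      have hnj : n / b ^ j < b ^ m := by
        rw [Nat.div_lt_iff_lt_mul hbj, ← pow_add]
        have : m + j = k := by omega
        rw [this]
        exact hn'
      constructor
      · intro h4
        have h5 : n / b ^ j < y / b ^ j := lt_of_lt_of_le h4 (by rw [hg]; exact min_le_left _ _)
        exact Nat.lt_of_div_lt_div h5
      · intro h4
        have h5 : n / b ^ j ≤ y / b ^ j := Nat.div_le_div_right h4.le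
        have h6 : n / b ^ j ≤ g := by rw [hg]; exact le_min h5 hnj.le
        omega
    have hd1 : ‖SU b k D G (ev f) F c y q a -
        ∑ n ∈ S b D k, (if n / b ^ j < g ∧ n % q = a then G n else 0) * ev f (F.eval (n : ℤ) + c)‖ ≤ s / 2 ^ m := by
      unfold SU
      rw [sum_filter, ← sum_sub_distrib]
      refine (norm_sum_le _ _).trans ?_
      calc ∑ n ∈ S b D k, ‖(if n < y ∧ n % q = a then G n * ev f (F.eval (n : ℤ) + c) else 0) -
            (if n / b ^ j < g ∧ n % q = a then G n else 0) * ev f (F.eval (n : ℤ) + c)‖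
          ≤ ∑ n ∈ S b D k, if n / b ^ j = g then (1 : ℝ) else 0 := by
            refine sum_le_sum fun n hn => ?_
            have h4 : ‖G n * ev f (F.eval (n : ℤ) + c)‖ ≤ 1 := by
              rw [norm_mul]
              calc ‖G n‖ * ‖ev f (F.eval (n : ℤ) + c)‖ ≤ 1 * 1 := mul_le_mul (hG n) (ev_norm f hf _) (norm_nonneg _) (by norm_num)
                _ = 1 := one_mul 1
            obtain ⟨h6, h7⟩ := hmem n hn
            by_cases hqa : n % q = a
            · by_cases h8 : n / b ^ j < g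
              · rw [if_pos ⟨h6 h8, hqa⟩, if_pos ⟨h8, hqa⟩, sub_self, norm_zero]
                split_ifs <;> norm_num
              · have e0 : (if n / b ^ j < g ∧ n % q = a then G n else 0) = 0 := if_neg (fun h => h8 h.1)
                rw [e0, zero_mul, sub_zero]
                by_cases h9 : n < y
                · rw [if_pos ⟨h9, hqa⟩, if_pos ((h7 h9).resolve_left h8)]
                  exact h4
                · rw [if_neg (fun h => h9 h.1), norm_zero]
                  split_ifs <;> norm_num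
            · rw [if_neg (fun h => hqa h.2), if_neg (fun h => hqa h.2), zero_mul, sub_zero, norm_zero]
              split_ifs <;> norm_num
        _ = (((S b D k).filter (fun n => n / b ^ j = g)).card : ℝ) := by
            rw [← sum_filter, sum_const, nsmul_eq_mul, mul_one]
        _ ≤ _ := hblock g
    have h5 : s / 2 ^ m ≤ s / (2 * (k : ℝ) ^ U) := by
      apply div_le_div_of_nonneg_left hs0 (by positivity)
      have h6 : 2 * k ^ U ≤ 2 ^ m := by
        refine le_trans ?_ hm1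
        rw [pow_succ]
        calc 2 * k ^ U ≤ 4 * (k ^ U * 1) := by omega
          _ ≤ 4 * (k ^ U * k) := Nat.mul_le_mul_left _ (Nat.mul_le_mul_left _ (by omega))
      exact_mod_cast h6
    have e1 : SU b k D G (ev f) F c y q a = (SU b k D G (ev f) F c y q a -
        ∑ n ∈ S b D k, (if n / b ^ j < g ∧ n % q = a then G n else 0) * ev f (F.eval (n : ℤ) + c)) +
        ∑ n ∈ S b D k, (if n / b ^ j < g ∧ n % q = a then G n else 0) * ev f (F.eval (n : ℤ) + c) := by ring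
    rw [e1]
    refine (norm_add_le _ _).trans ((add_le_add (hd1.trans h5) hg2).trans (le_of_eq ?_))
    field_simp
    ring
  have hcardI : (I.card : ℝ) ≤ (k : ℝ) ^ W := by
    rw [hI, card_product, card_product, card_range, card_range]
    have h4 : (b ^ m + 1) ≤ k ^ (b * (U + 4) + 1) := by
      have h5 : 1 ≤ k ^ (b * (U + 4)) := Nat.one_le_pow _ _ (by omega)
      rw [pow_succ]
      calc b ^ m + 1 ≤ k ^ (b * (U + 4)) * 2 := by omega
        _ ≤ k ^ (b * (U + 4)) * k := Nat.mul_le_mul_left _ (by omega)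
    have h5 : k ^ A + 1 ≤ k ^ (A + 1) := by
      have h6 : 1 ≤ k ^ A := Nat.one_le_pow _ _ (by omega)
      rw [pow_succ]
      calc k ^ A + 1 ≤ k ^ A * 2 := by omega
        _ ≤ k ^ A * k := Nat.mul_le_mul_left _ (by omega)
    have h6 : (b ^ m + 1) * ((k ^ A + 1) * (k ^ A + 1)) ≤ k ^ (b * (U + 4) + 1) * (k ^ (A + 1) * k ^ (A + 1)) :=
      Nat.mul_le_mul h4 (Nat.mul_le_mul h5 h5)
    have h7 : k ^ (b * (U + 4) + 1) * (k ^ (A + 1) * k ^ (A + 1)) ≤ k ^ W := by
      rw [← pow_add, ← pow_add, hW]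
      apply Nat.pow_le_pow_right (by omega)
      nlinarith
    exact_mod_cast h6.trans h7
  have hcount : (((Icc (-((B * N : ℕ) : ℤ)) ((B * N : ℕ) : ℤ)).filter (fun c : ℤ =>
      ∃ y q a : ℕ, 1 ≤ q ∧ q ≤ k ^ A ∧ s / (k : ℝ) ^ U < ‖SU b k D G (ev f) F c y q a‖)).card : ℝ) ≤ ∑ t ∈ I, ((Bd t).card : ℝ) := by
    exact_mod_cast (card_le_card hsub).trans card_biUnion_le
  refine hcount.trans ((sum_le_sum fun t _ => hBdc t).trans ?_)
  rw [sum_const, nsmul_eq_mul]
  calc (I.card : ℝ) * (N / (k : ℝ) ^ (W + U + 1)) ≤ (k : ℝ) ^ W * (N / (k : ℝ) ^ (W + U + 1)) :=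
        mul_le_mul_of_nonneg_right hcardI (by positivity)
    _ = N / (k : ℝ) ^ (U + 1) := by
        rw [show W + U + 1 = W + (U + 1) by ring, pow_add _ W]
        field_simp
    _ ≤ N / (k : ℝ) ^ U := by
        apply div_le_div_of_nonneg_left hNr.le (by positivity)
        exact pow_le_pow_right₀ hk1 (by omega)

end Pool.Agent.U108.LV
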